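import Pool.Agent.FS.LogThreshold.Main

namespace Pool.Agent.Results.MP_7b644b_an.LogThreshold

/-- For a row-stochastic matrix `A` of size `n` and any real diagonal matrix `E = diagonal e`,
the spectral radius of `A - E` (over the complex numbers) is at least
`e i - (log n - log (2 - exp t)) / t` for every index `i` and every `t` with `0 < t < log 2`. -/
theorem result (n : ℕ) (A : Matrix (Fin n) (Fin n) ℝ) (e : Fin n → ℝ) (h0 : ∀ i j, 0 ≤ A i j)
    (h1 : ∀ i, ∑ j, A i j = 1) (i : Fin n) (t : ℝ) (ht : 0 < t) (ht2 : t < Real.log 2) :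
    ENNReal.ofReal (e i - (Real.log n - Real.log (2 - Real.exp t)) / t) ≤
      spectralRadius ℂ ((A - Matrix.diagonal e).map (fun x : ℝ => (x : ℂ))) := by
  by_cases h : spectralRadius ℂ ((A - Matrix.diagonal e).map (fun x : ℝ => (x : ℂ))) = ⊤
  · rw [h]
    exact le_top
  · refine ENNReal.ofReal_le_of_le_toReal
      (Pool.Agent.FS.LogThreshold.main A e h0 h1 i ENNReal.toReal_nonneg ht ht2 fun μ hμ => ?_)
    refine (ENNReal.ofReal_le_iff_le_toReal h).mp ?_
    rw [← coe_nnnorm, ENNReal.ofReal_coe_nnreal]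
    exact le_iSup₂ (f := fun k (_ : k ∈ spectrum ℂ
      ((A - Matrix.diagonal e).map (fun x : ℝ => (x : ℂ)))) => ((‖k‖₊ : NNReal) : ENNReal)) μ hμ

end Pool.Agent.Results.MP_7b644b_an.LogThreshold
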